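import Pool.Agent.W558.WD.Stms

/-!
Project WILD: blowup of the intersection of a component of the boundary and of the divisors
`y t = 0`.
-/

set_option autoImplicit false
set_option linter.unusedVariables false
set_option linter.unusedSimpArgs false
set_option linter.unusedSectionVars false

universe u

open Polynomial

namespace Pool.Agent.W924.WD.PBL

open Pool.Agent.W558

section

variable {k N : Type u} [Field k] [Field N] [Algebra k N] {T I : Type} [DecidableEq I]

/-- the numerator on the chart `b` -/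
def nuo (i : I) (b : Bool) : Option I := if b then none else some i

/-- the denominator on the chart `b` -/
def deo (i : I) (b : Bool) : Option I := if b then some i else none

lemma nuo_ne_deo (i : I) (b : Bool) : nuo i b ≠ deo i b := by
  cases b <;> simp [nuo, deo]

lemma snc_comp {A : Subalgebra k N} {J J' : Type} {x : J → N} (h : SNC A x) {σ : J' → J}
    (hσ : Function.Injective σ) : SNC A (fun j => x (σ j)) := by
  intro κ _ _ φ i hi hφi
  obtain ⟨D, hD, hD'⟩ := h κ φ (σ i) hi hφi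
  exact ⟨D, hD, fun j hj hji hφj => hD' (σ j) hj (fun h => hji (hσ h)) hφj⟩

variable (M : LM (⊥ : Subalgebra k N) ⊤ T I) (y : T → N) (i : I)

/-- the coordinate on the chart -/
noncomputable def vo (q : T × Bool) : N :=
  ox (y q.1) (M.x q.1) (nuo i q.2) / ox (y q.1) (M.x q.1) (deo i q.2)

/-- the charts -/
noncomputable def pA (q : T × Bool) : Subalgebra k N := adj (M.A q.1) (vo M y i q)

/-- the strict transform of `y` -/
noncomputable def pY (q : T × Bool) : N :=
  bx (ox (y q.1) (M.x q.1)) (nuo i q.2) (deo i q.2) (some none)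

/-- the new components -/
noncomputable def pX (q : T × Bool) (o : Option I) : N :=
  bx (ox (y q.1) (M.x q.1)) (nuo i q.2) (deo i q.2) (o.map some)

lemma le_pA (q : T × Bool) : M.A q.1 ≤ pA M y i q := le_adj _ _

lemma vo_mem (q : T × Bool) : vo M y i q ∈ pA M y i q := self_mem_adj _ _

lemma pX_none (q : T × Bool) : pX M y i q none = ox (y q.1) (M.x q.1) (deo i q.2) := rfl

lemma pX_ne (q : T × Bool) {l : I} (h : l ≠ i) : pX M y i q (some l) = M.x q.1 l := by
  obtain ⟨t, b⟩ := q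
  cases b <;> simp [pX, bx, nuo, deo, ox, h]

variable {y}

lemma ox_mem (hyA : ∀ t, y t ∈ M.A t) (t : T) (o : Option I) : ox (y t) (M.x t) o ∈ M.A t := by
  cases o with
  | none => exact hyA t
  | some l => exact M.xA t l

lemma ox_ne (hy0 : ∀ t, y t ≠ 0) (t : T) (o : Option I) : ox (y t) (M.x t) o ≠ 0 := by
  cases o with
  | none => exact hy0 t
  | some l => exact M.x0 t l

lemma y_eq (hy0 : ∀ t, y t ≠ 0) (q : T × Bool) : y q.1 = pY M y i q * pX M y i q none := by
  obtain ⟨t, b⟩ := q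
  have h1 := M.x0 t i
  cases b
  · simp [pY, pX, bx, nuo, deo, ox]
  · simp [pY, pX, bx, nuo, deo, ox]
    field_simp

lemma xi_eq (hy0 : ∀ t, y t ≠ 0) (q : T × Bool) :
    M.x q.1 i = pX M y i q (some i) * pX M y i q none := by
  obtain ⟨t, b⟩ := q
  have h1 := hy0 t
  cases b
  · simp [pX, bx, nuo, deo, ox]
    field_simp
  · simp [pX, bx, nuo, deo, ox]

/-- all components -/
lemma x_eq (hy0 : ∀ t, y t ≠ 0) (q : T × Bool) (l : I) :
    M.x q.1 l = pX M y i q (some l) * (if l = i then pX M y i q none else 1) := by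
  split_ifs with h
  · rw [h]
    exact xi_eq M i hy0 q
  · rw [mul_one, pX_ne M y i q h]

lemma bx_mem (hyA : ∀ t, y t ∈ M.A t) (q : T × Bool) (o : Option (Option I)) :
    bx (ox (y q.1) (M.x q.1)) (nuo i q.2) (deo i q.2) o ∈ pA M y i q := by
  cases o with
  | none => exact le_pA M y i q (ox_mem M hyA _ _)
  | some l =>
    simp only [bx]
    split_ifs
    · exact vo_mem M y i q
    · exact (pA M y i q).one_mem
    · exact le_pA M y i q (ox_mem M hyA _ _)

lemma bx_ne (hy0 : ∀ t, y t ≠ 0) (q : T × Bool) (o : Option (Option I)) :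
    bx (ox (y q.1) (M.x q.1)) (nuo i q.2) (deo i q.2) o ≠ 0 := by
  cases o with
  | none => exact ox_ne M hy0 _ _
  | some l =>
    simp only [bx]
    split_ifs
    · exact div_ne_zero (ox_ne M hy0 _ _) (ox_ne M hy0 _ _)
    · exact one_ne_zero
    · exact ox_ne M hy0 _ _

lemma smooth_pA (hyA : ∀ t, y t ∈ M.A t) (hy0 : ∀ t, y t ≠ 0)
    (hs : ∀ t, SNC (M.A t) (ox (y t) (M.x t))) (q : T × Bool) :
    Algebra.Smooth k (pA M y i q) := by
  have := M.sm q.1
  have h1 := (hs q.1).trans (nuo_ne_deo i q.2) (ox_mem M hyA q.1 _) (ox_mem M hyA q.1 _)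
  exact smooth_adj (x := ⟨ox (y q.1) (M.x q.1) (nuo i q.2), ox_mem M hyA _ _⟩)
    (y := ⟨ox (y q.1) (M.x q.1) (deo i q.2), ox_mem M hyA _ _⟩) (ox_ne M hy0 _ _) h1

/-- the ratios on one chart -/
lemma div_mem (q : T × Bool) (hy0 : ∀ t, y t ≠ 0) (o : Option I) (ho : o = none ∨ o = some i) :
    ox (y q.1) (M.x q.1) o / ox (y q.1) (M.x q.1) (deo i q.2) ∈ pA M y i q := by
  by_cases h : o = deo i q.2
  · rw [h, div_self (ox_ne M hy0 _ _)]
    exact (pA M y i q).one_mem
  · have h2 : o = nuo i q.2 := by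
      obtain ⟨t, b⟩ := q
      cases b <;> rcases ho with rfl | rfl <;> simp_all [deo, nuo]
    rw [h2]
    exact vo_mem M y i q

lemma deo_eq (b : Bool) : deo i b = none ∨ deo i b = some i := by cases b <;> simp [deo]

lemma nuo_eq (b : Bool) : nuo i b = none ∨ nuo i b = some i := by cases b <;> simp [nuo]

/-- a common exponent -/
lemma exists_N [Finite T] [Finite I] (hg : ∀ t t', ∃ n : ℕ, ∃ α ∈ M.A t, ∃ β ∈ M.A t,
    (M.H t' / M.H t) ^ n * y t' = α * y t + β * M.x t i) :
    ∃ N0 : ℕ, ∀ n, N0 ≤ n →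
      (∀ t t' l, (M.H t' / M.H t) ^ n * (M.x t' l / M.x t l) ∈ M.A t) ∧
      ∀ t t', ∃ α ∈ M.A t, ∃ β ∈ M.A t,
        (M.H t' / M.H t) ^ n * y t' = α * y t + β * M.x t i := by
  classical
  obtain ⟨N1, hN1⟩ := M.exists_N
  have : Fintype T := Fintype.ofFinite T
  choose n hn using hg
  refine ⟨N1 + (Finset.univ.sup fun p : T × T => n p.1 p.2), fun m hm =>
    ⟨(hN1 m (by omega)).1, fun t t' => ?_⟩⟩
  have h1 : n t t' ≤ Finset.univ.sup fun p : T × T => n p.1 p.2 :=
    Finset.le_sup (f := fun p : T × T => n p.1 p.2) (Finset.mem_univ (t, t'))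
  obtain ⟨e, he⟩ := Nat.exists_eq_add_of_le (show n t t' ≤ m by omega)
  obtain ⟨α, hα, β, hβ, h2⟩ := hn t t'
  have h3 := (M.A t).pow_mem (M.rt t t') e
  refine ⟨(M.H t' / M.H t) ^ e * α, (M.A t).mul_mem h3 hα, (M.H t' / M.H t) ^ e * β,
    (M.A t).mul_mem h3 hβ, ?_⟩
  rw [he, add_comm, pow_add, mul_assoc, h2]
  ring

/-- the blowup -/
theorem exists_pbl [Finite T] [Finite I] (hyA : ∀ t, y t ∈ M.A t) (hy0 : ∀ t, y t ≠ 0)
    (hs : ∀ t, SNC (M.A t) (ox (y t) (M.x t)))
    (hg : ∀ t t', ∃ n : ℕ, ∃ α ∈ M.A t, ∃ β ∈ M.A t,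
      (M.H t' / M.H t) ^ n * y t' = α * y t + β * M.x t i) :
    ∃ M' : LM (⊥ : Subalgebra k N) ⊤ (T × Bool) (Option I), M'.A = pA M y i ∧ M'.x = pX M y i := by
  obtain ⟨N0, hN0⟩ := exists_N M i hg
  let N1 : ℕ := 2 * N0 + 1
  let ρ : T → T → N := fun t t' => M.H t' / M.H t
  let X : (t : T) → Option I → N := fun t => ox (y t) (M.x t)
  let HH : T × Bool → N := fun q => M.H q.1 ^ N1 * X q.1 (deo i q.2)
  have hX0 : ∀ t o, X t o ≠ 0 := fun t o => ox_ne M hy0 t o
  have hN : ∀ q : T × Bool, HH q = M.H q.1 ^ N1 * X q.1 (deo i q.2) := fun q => rfl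
  have hH0 : ∀ q : T × Bool, HH q ≠ 0 := fun q =>
    mul_ne_zero (pow_ne_zero _ (M.H0 _)) (hX0 _ _)
  have hdiv : ∀ (q : T × Bool) (o : Option I), o = none ∨ o = some i →
      X q.1 o / X q.1 (deo i q.2) ∈ pA M y i q := fun q o ho => div_mem M i q hy0 o ho
  -- the basic ratios
  have hX : ∀ (q q' : T × Bool) (n : ℕ), N0 ≤ n → ∀ o : Option I, o = none ∨ o = some i →
      (M.H q'.1 / M.H q.1) ^ n * (X q'.1 o / X q.1 (deo i q.2)) ∈ pA M y i q := by
    intro q q' n hn o ho
    rcases ho with rfl | rfl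
    · obtain ⟨α, hα, β, hβ, h1⟩ := (hN0 n hn).2 q.1 q'.1
      have h2 : (M.H q'.1 / M.H q.1) ^ n * (X q'.1 none / X q.1 (deo i q.2)) =
          α * (X q.1 none / X q.1 (deo i q.2)) + β * (X q.1 (some i) / X q.1 (deo i q.2)) := by
        have h3 : (M.H q'.1 / M.H q.1) ^ n * X q'.1 none = α * X q.1 none + β * X q.1 (some i) :=
          h1
        rw [← mul_div_assoc, h3]
        ring
      rw [h2]
      exact (pA M y i q).add_mem
        ((pA M y i q).mul_mem (le_pA M y i q hα) (hdiv q none (Or.inl rfl)))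
        ((pA M y i q).mul_mem (le_pA M y i q hβ) (hdiv q (some i) (Or.inr rfl)))
    · have h1 : (M.H q'.1 / M.H q.1) ^ n * (X q'.1 (some i) / X q.1 (deo i q.2)) =
          (M.H q'.1 / M.H q.1) ^ n * (M.x q'.1 i / M.x q.1 i) *
          (X q.1 (some i) / X q.1 (deo i q.2)) := by
        have h2 : X q'.1 (some i) = M.x q'.1 i := rfl
        have h3 : X q.1 (some i) = M.x q.1 i := rfl
        have := M.x0 q.1 i
        rw [h2, h3]
        field_simp
      rw [h1]
      exact (pA M y i q).mul_mem (le_pA M y i q ((hN0 n hn).1 _ _ _)) (hdiv q _ (Or.inr rfl))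
  have hρ : ∀ q q' : T × Bool, HH q' / HH q =
      (M.H q'.1 / M.H q.1) * ((M.H q'.1 / M.H q.1) ^ (2 * N0) *
        (X q'.1 (deo i q'.2) / X q.1 (deo i q.2))) := by
    intro q q'
    rw [hN, hN, show N1 = 2 * N0 + 1 from rfl, pow_succ, pow_succ]
    have h1 := M.H0 q.1
    have h2 := hX0 q.1 (deo i q.2)
    rw [div_pow]
    field_simp
  have hρmem : ∀ q q' : T × Bool, HH q' / HH q ∈ pA M y i q := by
    intro q q'
    rw [hρ]
    exact (pA M y i q).mul_mem (le_pA M y i q (M.rt _ _)) (hX q q' _ (by omega) _ (deo_eq i _))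
  have hgl : ∀ q q' : T × Bool, ∀ f ∈ pA M y i q', ∃ n : ℕ,
      (HH q' / HH q) ^ n * f ∈ pA M y i q := by
    intro q q' f hf
    refine adj_induction (M.A q'.1) (vo M y i q')
      (p := fun f => ∃ n : ℕ, (HH q' / HH q) ^ n * f ∈ pA M y i q) ?_ ?_ ?_ f hf
    · intro a ha
      obtain ⟨n, hn⟩ := M.gl q.1 q'.1 a ha
      refine ⟨n, ?_⟩
      rw [hρ, mul_pow, mul_right_comm]
      exact (pA M y i q).mul_mem (le_pA M y i q hn)
        ((pA M y i q).pow_mem (hX q q' _ (by omega) _ (deo_eq i _)) n)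
    · rintro a b ⟨n, hn⟩ ⟨m, hm⟩
      refine ⟨n + m, ?_⟩
      have h1 : (HH q' / HH q) ^ (n + m) * (a + b) =
          (HH q' / HH q) ^ m * ((HH q' / HH q) ^ n * a) +
          (HH q' / HH q) ^ n * ((HH q' / HH q) ^ m * b) := by
        ring
      rw [h1]
      exact (pA M y i q).add_mem
        ((pA M y i q).mul_mem ((pA M y i q).pow_mem (hρmem q q') m) hn)
        ((pA M y i q).mul_mem ((pA M y i q).pow_mem (hρmem q q') n) hm)
    · rintro a ⟨n, hn⟩
      refine ⟨n + 1, ?_⟩
      have h1 : (HH q' / HH q) ^ (n + 1) * (a * vo M y i q') =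
          (HH q' / HH q) ^ n * a * (HH q' / HH q * vo M y i q') := by ring
      rw [h1]
      refine (pA M y i q).mul_mem hn ?_
      have h2 : HH q' / HH q * vo M y i q' =
          (M.H q'.1 / M.H q.1) ^ N1 * (X q'.1 (nuo i q'.2) / X q.1 (deo i q.2)) := by
        have h0 : vo M y i q' = X q'.1 (nuo i q'.2) / X q'.1 (deo i q'.2) := rfl
        rw [hN, hN, h0]
        have h1 := M.H0 q.1
        have h2 := hX0 q.1 (deo i q.2)
        have h4 := hX0 q'.1 (deo i q'.2)
        rw [div_pow]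
        field_simp
      rw [h2]
      exact hX q q' _ (by omega) _ (nuo_eq i _)
  refine ⟨{ A := pA M y i, H := HH, x := pX M y i, sm := smooth_pA M i hyA hy0 hs,
            base := fun q => bot_le, H0 := hH0, HR := fun q => Algebra.mem_top,
            rt := hρmem, gl := hgl, dn := fun q f hf => ⟨0, Algebra.mem_top⟩, cv := ?_,
            xA := fun q o => bx_mem M i hyA q _, x0 := fun q o => bx_ne M i hy0 q _,
            gi := ?_, snc := ?_ }, rfl, rfl⟩
  · -- covering
    intro W hW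
    obtain ⟨t, ht⟩ := M.cv W hW
    have h1 : ∀ b : Bool, vo M y i (t, b) ∈ W → ∀ f ∈ pA M y i (t, b), f ∈ W := by
      intro b hb
      exact adj_induction (M.A t) (vo M y i (t, b)) ht (fun a b ha hb => W.add_mem _ _ ha hb)
        (fun a ha => W.mul_mem _ _ ha hb)
    rcases W.mem_or_inv_mem (vo M y i (t, true)) with h | h
    · exact ⟨(t, true), h1 true h⟩
    · refine ⟨(t, false), h1 false ?_⟩
      have : vo M y i (t, false) = (vo M y i (t, true))⁻¹ := by
        simp [vo, nuo, deo]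
      rw [this]
      exact h
  · -- gluing of the divisors
    rintro q q' (_ | l)
    · refine ⟨1, ?_⟩
      have h1 : (HH q' / HH q) ^ 1 * (pX M y i q' none / pX M y i q none) =
          (M.H q'.1 / M.H q.1) *
          ((M.H q'.1 / M.H q.1) ^ N0 * (X q'.1 (deo i q'.2) / X q.1 (deo i q.2))) ^ 2 := by
        have e1 : ∀ q : T × Bool, pX M y i q none = X q.1 (deo i q.2) := fun q => rfl
        rw [pow_one, hρ, e1, e1, mul_pow, ← pow_mul, mul_comm N0 2]
        ring
      rw [h1]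
      exact (pA M y i q).mul_mem (le_pA M y i q (M.rt _ _))
        ((pA M y i q).pow_mem (hX q q' _ le_rfl _ (deo_eq i _)) 2)
    · by_cases hl : l = i
      · subst hl
        refine ⟨1, ?_⟩
        have h1 : (HH q' / HH q) ^ 1 * (pX M y l q' (some l) / pX M y l q (some l)) =
            (M.H q'.1 / M.H q.1) ^ N1 * (M.x q'.1 l / M.x q.1 l) := by
          rw [xi_eq M l hy0 q, xi_eq M l hy0 q', pow_one, hN, hN]
          have e1 : ∀ q : T × Bool, pX M y l q none = X q.1 (deo l q.2) := fun q => rfl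
          rw [e1, e1]
          have h1 := M.H0 q.1
          have h2 := hX0 q.1 (deo l q.2)
          have h3 : pX M y l q (some l) ≠ 0 := bx_ne M l hy0 q _
          have h4 := hX0 q'.1 (deo l q'.2)
          rw [div_pow]
          field_simp
        rw [h1]
        exact le_pA M y l q ((hN0 N1 (by omega)).1 _ _ _)
      · refine ⟨N0, ?_⟩
        rw [pX_ne M y i q hl, pX_ne M y i q' hl, hρ, mul_pow, mul_right_comm]
        exact (pA M y i q).mul_mem (le_pA M y i q ((hN0 N0 le_rfl).1 _ _ _))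
          ((pA M y i q).pow_mem (hX q q' _ (by omega) _ (deo_eq i _)) N0)
  · intro q
    have := M.sm q.1
    exact snc_comp ((hs q.1).blow (ox_mem M hyA q.1) (ox_ne M hy0 q.1) (nuo_ne_deo i q.2))
      (Option.map_injective (Option.some_injective I))

/-- the pullback of monomials -/
lemma prod_pX [Fintype I] (hy0 : ∀ t, y t ≠ 0) (q : T × Bool) (γ : I → ℤ) :
    ∏ l, M.x q.1 l ^ γ l = pX M y i q none ^ γ i * ∏ l, pX M y i q (some l) ^ γ l := by
  have h1 : ∀ l, M.x q.1 l ^ γ l = pX M y i q (some l) ^ γ l *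
      (if l = i then pX M y i q none ^ γ i else 1) := by
    intro l
    rw [x_eq M i hy0 q l, mul_zpow]
    split_ifs with h
    · rw [h]
    · rw [one_zpow]
  rw [Finset.prod_congr rfl fun l _ => h1 l, Finset.prod_mul_distrib,
    Finset.prod_ite_eq' Finset.univ i, if_pos (Finset.mem_univ i), mul_comm]

/-- the logarithmic tangent vectors -/
lemma ln_pA {p : ℕ} [CharP k p] [Fintype I] (hyA : ∀ t, y t ∈ M.A t) (hy0 : ∀ t, y t ≠ 0)
    (hs : ∀ t, SNC (M.A t) (ox (y t) (M.x t))) {c : I → ℤ} (q : T × Bool) {f : N}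
    (hf0 : f ∈ M.A q.1)
    (hln : ∀ (κ : Type u) [Field κ] [Algebra k κ] (φ : M.A q.1 →ₐ[k] κ),
      ∃ v : LT φ (ox (y q.1) (M.x q.1)), om v (fun o => o.elim 0 c) hf0 ≠ 0)
    (B : Subalgebra k N) (hB : B = pA M y i q) (x' : Option I → N) (hx' : x' = pX M y i q)
    (κ : Type u) [Field κ] [Algebra k κ] (φ : B →ₐ[k] κ) (hf : f ∈ B) :
    ∃ v : LT φ (ox (pY M y i q) x'),
      om v (fun o => o.elim 0 fun o => o.elim (c i - p) c) hf ≠ 0 := by
  subst hB hx'
  have := M.sm q.1
  let X : Option I → N := ox (y q.1) (M.x q.1)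
  let nu := nuo i q.2
  let de := deo i q.2
  have hXm : ∀ o, X o ∈ M.A q.1 := fun o => ox_mem M hyA q.1 o
  have hX0 : ∀ o, X o ≠ 0 := fun o => ox_ne M hy0 q.1 o
  let φ0 : M.A q.1 →ₐ[k] κ := φ.comp (Subalgebra.inclusion (le_pA M y i q))
  obtain ⟨v, hv⟩ := hln κ φ0
  have ht : Trans (M.A q.1) (⟨X nu, hXm nu⟩ : M.A q.1) ⟨X de, hXm de⟩ :=
    (hs q.1).trans (nuo_ne_deo i q.2) _ _
  have hrel : φ0 ⟨X de, hXm de⟩ * φ ⟨vo M y i q, vo_mem M y i q⟩ = φ0 ⟨X nu, hXm nu⟩ := by
    have h1 : ∀ a : M.A q.1, φ0 a = φ ⟨a, le_pA M y i q a.2⟩ := fun a => rfl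
    rw [h1, h1, ← map_mul]
    congr 1
    apply Subtype.ext
    change X de * (X nu / X de) = X nu
    have := hX0 de
    field_simp
  obtain ⟨E, hE1, hE2⟩ := TV.ext_adj (x := ⟨X nu, hXm nu⟩) (y := ⟨X de, hXm de⟩) (hX0 de) ht φ φ0
    (fun a => rfl) v.D (φ ⟨vo M y i q, vo_mem M y i q⟩ * (v.e nu - v.e de)) (by
      rw [v.hx nu (hXm nu), v.hx de (hXm de), ← hrel]
      change φ0 ⟨X de, hXm de⟩ * (φ ⟨vo M y i q, vo_mem M y i q⟩ * (v.e nu - v.e de)) +
        φ ⟨vo M y i q, vo_mem M y i q⟩ * (φ0 ⟨X de, hXm de⟩ * v.e de) =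
        φ0 ⟨X de, hXm de⟩ * φ ⟨vo M y i q, vo_mem M y i q⟩ * v.e nu
      ring)
  let P : N → κ → Prop := fun a e0 => ∀ ha : a ∈ pA M y i q, E.D ⟨a, ha⟩ = φ ⟨a, ha⟩ * e0
  have P1 : P 1 0 := by
    intro ha
    rw [mul_zero]
    exact E.D_one
  have PV : P (vo M y i q) (v.e nu - v.e de) := fun ha => hE2
  have PX : ∀ o, P (X o) (v.e o) := by
    intro o ha
    exact (hE1 ⟨X o, hXm o⟩).trans (v.hx o (hXm o))
  let e' : Option (Option I) → κ := fun o => o.elim (v.e none - v.e de) fun o =>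
    o.elim (v.e de) fun l => if l = i then v.e (some i) - v.e de else v.e (some l)
  have hP : ∀ o, P (ox (pY M y i q) (pX M y i q) o) (e' o) := by
    rintro (_ | _ | l)
    · obtain ⟨t, b⟩ := q
      cases b
      · have h1 : ox (pY M y i (t, false)) (pX M y i (t, false)) none = 1 := by
          simp [pY, bx, nuo, deo, ox]
        have h2 : e' none = 0 := by simp [e', de, deo]
        rw [h1, h2]
        exact P1
      · have h1 : ox (pY M y i (t, true)) (pX M y i (t, true)) none = vo M y i (t, true) := by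
          simp [pY, bx, nuo, deo, ox, vo]
        rw [h1]
        exact PV
    · exact PX de
    · by_cases hl : l = i
      · subst hl
        obtain ⟨t, b⟩ := q
        cases b
        · have h1 : ox (pY M y l (t, false)) (pX M y l (t, false)) (some (some l)) =
              vo M y l (t, false) := by
            simp [pX, bx, nuo, deo, ox, vo]
          have h2 : e' (some (some l)) = v.e nu - v.e de := by
            simp [e', de, nu, deo, nuo]
          rw [h1, h2]
          exact PV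
        · have h1 : ox (pY M y l (t, true)) (pX M y l (t, true)) (some (some l)) = 1 := by
            simp [pX, bx, nuo, deo, ox]
          have h2 : e' (some (some l)) = 0 := by simp [e', de, deo]
          rw [h1, h2]
          exact P1
      · have h1 : ox (pY M y i q) (pX M y i q) (some (some l)) = X (some l) :=
          pX_ne M y i q hl
        have h2 : e' (some (some l)) = v.e (some l) := by simp [e', hl]
        rw [h1, h2]
        exact PX _
  refine ⟨⟨E, e', fun o ho => hP o ho⟩, ?_⟩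
  have hpκ : (p : κ) = 0 := by
    have h1 : algebraMap k κ (p : k) = (p : κ) := map_natCast _ p
    rw [← h1, CharP.cast_eq_zero, map_zero]
  have hsum : ∑ o : Option (Option I), (((fun o : Option (Option I) => o.elim 0 fun o =>
      o.elim (c i - p) c) o : ℤ) : κ) * e' o =
      ∑ o : Option I, (((fun o : Option I => o.elim 0 c) o : ℤ) : κ) * v.e o := by
    rw [Fintype.sum_option, Fintype.sum_option, Fintype.sum_option]
    simp only [Option.elim, e']
    have h1 : ∀ l : I, (c l : κ) * (if l = i then v.e (some i) - v.e de else v.e (some l)) =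
        (c l : κ) * v.e (some l) - (if l = i then (c i : κ) * v.e de else 0) := by
      intro l
      split_ifs with h
      · subst h
        ring
      · ring
    rw [Finset.sum_congr rfl fun l _ => h1 l, Finset.sum_sub_distrib,
      Finset.sum_ite_eq' Finset.univ i, if_pos (Finset.mem_univ i)]
    push_cast
    rw [hpκ]
    ring
  have hom : om (⟨E, e', fun o ho => hP o ho⟩ : LT φ (ox (pY M y i q) (pX M y i q)))
      (fun o => o.elim 0 fun o => o.elim (c i - p) c) hf =
      om v (fun o => o.elim 0 c) hf0 := by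
    unfold om
    rw [← hsum]
    congr 1
    exact hE1 ⟨f, hf0⟩
  rw [hom]
  exact hv

end

theorem main : WD_pbl.{u} := by
  intro p hp k N _ _ _ _ T I G _ _ _ M F Q y h c μ g Γ hPS hLq hFn i hci hgl
  have hp0 : p ≠ 0 := hp.out.ne_zero
  obtain ⟨M', hA, hx⟩ := exists_pbl M i hPS.yA hPS.y0 hPS.snc hgl
  have hle : ∀ q : T × Bool, M.A q.1 ≤ M'.A q := fun q => by
    rw [hA]
    exact le_pA M y i q
  have hy0 := hPS.y0
  have hyA := hPS.yA
  have hyE := y_eq M i hy0
  have hxE := x_eq M i hy0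
  have hYA : ∀ q, pY M y i q ∈ M'.A q := fun q => by
    rw [hA]
    exact bx_mem M i hyA q _
  have hXA : ∀ q o, pX M y i q o ∈ M'.A q := fun q o => by
    rw [hA]
    exact bx_mem M i hyA q _
  have hY0 : ∀ q, pY M y i q ≠ 0 := fun q => bx_ne M i hy0 q _
  have hX0 : ∀ q o, pX M y i q o ≠ 0 := fun q o => bx_ne M i hy0 q _
  -- factors
  have hc : ∀ (q : T × Bool) (l : I), ∃ w ∈ M'.A q, M.x q.1 l = w * pX M y i q (some l) := by
    intro q l
    refine ⟨if l = i then pX M y i q none else 1, ?_, ?_⟩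
    · split_ifs
      · exact hXA q _
      · exact (M'.A q).one_mem
    · rw [mul_comm]
      exact hxE q l
  have hoxQ : ∀ t o, ox (y t) (M.x t) o ∈ Q := fun t o => hPS.AQ t (ox_mem M hyA t o)
  have hoxQ' : ∀ t o, (ox (y t) (M.x t) o)⁻¹ ∈ Q := fun t o => by
    cases o with
    | none => exact hPS.yQ t
    | some l => exact hPS.xQ t l
  have hbQ : ∀ (q : T × Bool) (o : Option (Option I)),
      (bx (ox (y q.1) (M.x q.1)) (nuo i q.2) (deo i q.2) o)⁻¹ ∈ Q := by
    intro q o
    cases o with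
    | none => exact hoxQ' _ _
    | some l =>
      simp only [bx]
      split_ifs
      · rw [inv_div, div_eq_mul_inv]
        exact Q.mul_mem (hoxQ _ _) (hoxQ' _ _)
      · rw [inv_one]
        exact Q.one_mem
      · exact hoxQ' _ _
  refine ⟨M', pY M y i, fun q => h q.1, fun o => o.elim (μ i + 1) μ,
    fun a o => o.elim (Γ a i) (Γ a), ?_, ?_, ?_, ?_, ?_, ?_, ?_, ?_⟩
  · refine ⟨hYA, hY0, fun q => hle q (hPS.hA q.1), ?_, ?_, fun q => hbQ q _, ?_, ?_, ?_⟩
    · -- AQ
      intro q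
      rw [hA]
      refine adj_le (hPS.AQ q.1) ?_
      unfold vo
      rw [div_eq_mul_inv]
      exact Q.mul_mem (hoxQ _ _) (hoxQ' _ _)
    · intro q o
      rw [hx]
      exact hbQ q _
    · -- the equation
      intro q
      rw [hPS.eq q.1, hx, Fintype.prod_option, Fintype.prod_option]
      rw [prod_pX M i hy0 q, prod_pX M i hy0 q, hyE q]
      simp only [Option.elim]
      have hn := hX0 q none
      rw [mul_add, mul_one, zpow_add₀ hn, zpow_sub₀ hn, mul_pow, zpow_natCast]
      have hn' : pX M y i q none ^ p ≠ 0 := pow_ne_zero _ hn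
      field_simp
    · intro q
      rw [hA, hx]
      have := M.sm q.1
      have h1 := (hPS.snc q.1).blow (ox_mem M hyA q.1) (ox_ne M hy0 q.1) (nuo_ne_deo i q.2)
      let σ : Option (Option I) → Option (Option I) := fun o => o.elim (some none) (Option.map some)
      have hσ : Function.Injective σ := by
        rintro (_ | _ | a) (_ | _ | b) hab <;> simp_all [σ]
      have h2 := snc_comp h1 hσ
      refine (congrArg (SNC (pA M y i q)) ?_).mp h2
      funext o
      rcases o with _ | _ | a <;> rfl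
    · intro q κ _ _ φ
      exact ln_pA M i hyA hy0 hPS.snc q (hPS.hA q.1) (hPS.ln q.1) (M'.A q) (by rw [hA])
        (M'.x q) (by rw [hx]) κ φ _
  · intro q s hs
    obtain ⟨α, hα, β, hβ, h1, h2, h3⟩ := hLq q.1 s hs
    exact ⟨α, hle q hα, β, hle q hβ, h1, h2, h3⟩
  · intro a q
    obtain ⟨w, hw0, hw, hw', hga⟩ := hFn a q.1
    refine ⟨w, hw0, hle q hw, hle q hw', ?_⟩
    rw [hga, prod_pX M i hy0 q, hx, Fintype.prod_option]
    rfl
  · -- SepY
    rintro ⟨t, b⟩
    rw [hx]
    cases b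
    · refine ⟨0, (M'.A _).zero_mem, 1, (M'.A _).one_mem, ?_⟩
      simp [pY, bx, nuo, deo]
    · refine ⟨1, (M'.A _).one_mem, 0, (M'.A _).zero_mem, ?_⟩
      simp [pX, bx, nuo, deo]
  · intro l l' hh q
    rw [hx]
    obtain ⟨α, hα, β, hβ, h1⟩ := hh q.1
    obtain ⟨w, hw1, hw2⟩ := hc q l
    obtain ⟨w', hw1', hw2'⟩ := hc q l'
    refine ⟨α * w, (M'.A q).mul_mem (hle q hα) hw1, β * w', (M'.A q).mul_mem (hle q hβ) hw1', ?_⟩
    rw [← h1, hw2, hw2']
    ring
  · intro l hh q
    rw [hx]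
    obtain ⟨α, hα, β, hβ, h1⟩ := hh q.1
    obtain ⟨w, hw1, hw2⟩ := hc q l
    refine ⟨α * w, (M'.A q).mul_mem (hle q hα) hw1, β * pX M y i q none,
      (M'.A q).mul_mem (hle q hβ) (hXA q _), ?_⟩
    rw [← h1, hw2, hyE q]
    ring
  · intro l hh q
    rw [hx]
    obtain ⟨α, hα, β, hβ, h1⟩ := hh q.1
    obtain ⟨w, hw1, hw2⟩ := hc q l
    refine ⟨α * pX M y i q (some i), (M'.A q).mul_mem (hle q hα) (hXA q _), β * w,
      (M'.A q).mul_mem (hle q hβ) hw1, ?_⟩
    rw [← h1, hw2, xi_eq M i hy0 q]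
    ring
  · intro l hh q
    rw [hx]
    obtain ⟨α, hα, β, hβ, h1⟩ := hh q.1
    obtain ⟨w, hw1, hw2⟩ := hc q l
    refine ⟨β * pY M y i q, (M'.A q).mul_mem (hle q hβ) (hYA q), α * w,
      (M'.A q).mul_mem (hle q hα) hw1, ?_⟩
    rw [← h1, hw2, hyE q]
    ring

end Pool.Agent.W924.WD.PBL
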